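import Pool.Agent.Lib.MP_56b6c1_co.Defs
import Pool.Agent.Lib.MP_56b6c1_co.Ex
import Pool.Agent.Lib.MP_56b6c1_co.Cert

namespace Pool.Agent.Results.MP_56b6c1_co.IntersectingFour

open Pool.Agent.Lib.MP_56b6c1_co

/-- The least number of edges of an intersecting family of 4-sets without property B is 25. -/
theorem result :
    IsLeast {m : ℕ | ∃ F : Finset (Finset ℕ),
      Uniform 4 F ∧ Intersecting F ∧ ¬ PropertyB F ∧ F.card = m} 25 := by
  refine ⟨ex25, ?_⟩
  rintro m ⟨F, h4, hI, hB, rfl⟩
  by_contra h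
  exact hB (lower F h4 hI (by omega))

end Pool.Agent.Results.MP_56b6c1_co.IntersectingFour
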