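import Pool.Agent.Lib.MP_56b6c1_co.Defs
import Pool.Agent.Lib.MP_56b6c1_co.Ex
import Pool.Agent.Lib.MP_56b6c1_co.Cert

namespace Pool.Agent.Results.MP_56b6c1_co.MinimumFour

open Pool.Agent.Lib.MP_56b6c1_co

/-- Minimum families for `n = 4` exist and none of them is intersecting. -/
theorem result : (∃ F : Finset (Finset ℕ), IsMinimum 4 F) ∧
    ∀ F : Finset (Finset ℕ), IsMinimum 4 F → ¬ Intersecting F := by
  obtain ⟨G, g4, gB, gc⟩ := ex23
  refine ⟨?_, ?_⟩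
  · obtain ⟨F, hF, hmin⟩ := (measure (fun F : Finset (Finset ℕ) => F.card)).wf.has_min
      {F | Uniform 4 F ∧ ¬ PropertyB F} ⟨G, g4, gB⟩
    exact ⟨F, hF.1, hF.2, fun H h4 hB => not_lt.1 (hmin H ⟨h4, hB⟩)⟩
  · rintro F ⟨h4, hB, hmin⟩ hI
    have := hmin G g4 gB
    exact hB (lower F h4 hI (by omega))

end Pool.Agent.Results.MP_56b6c1_co.MinimumFour
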